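import Pool.Agent.Run7.h243.Small
import Pool.Agent.Run7.h243.Big
import Pool.Agent.Run7.h243.U.Up5

/-! The `m`-pire chromatic numbers of the orientable surfaces of genus at least two. -/

namespace Pool.Agent.Results.MP_800721_co.ExactValue

open Run7.B243 Run7.h243

/-- Heawood's number for the `m`-pire maps on the sphere with `g` handles -/
noncomputable def heawood (g m : ℕ) : ℕ :=
  ⌊(6 * (m : ℝ) + 1 + Real.sqrt ((6 * (m : ℝ) + 1) ^ 2 + 48 * ((g : ℝ) - 1))) / 2⌋₊

/-- `M` and `country` form an `m`-pire map on the sphere with `g` handles -/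
def IsPire (g m : ℕ) (M : CellMap) {C : Type} (country : M.Face → C) : Prop :=
  M.On (Surface.S g) ∧ ∀ c : C, Nat.card {f : M.Face // country f = c} = m

/-- `H` embeds in the sphere with `g` handles: its vertices are distinct regions of a cell map on
it, adjacent vertices being regions that share an edge of the map -/
def Embeds (g : ℕ) {V : Type} (H : SimpleGraph V) : Prop :=
  ∃ (M : CellMap) (f : V → M.Face), M.On (Surface.S g) ∧ Function.Injective f ∧
    ∀ u v, H.Adj u v → ∃ x, M.face x = f u ∧ M.face (M.r2 x) = f v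

/-- `k` colours suffice for every graph obtained from a finite graph `H` in the sphere with `g`
handles by contracting the classes of a partition into classes of `m` vertices -/
def Suffices (g m k : ℕ) : Prop :=
  ∀ (V C : Type) (H : SimpleGraph V) (country : V → C), Finite V → Embeds g H →
    (∀ c : C, Nat.card {v : V // country v = c} = m) →
    ∃ col : C → Fin k, ∀ u v, H.Adj u v → country u ≠ country v →
      col (country u) ≠ col (country v)

theorem heawood_eq (g m : ℕ) (hm : 1 ≤ m) (hg : 1 ≤ g) :
    H (2 - 2 * (g : ℤ)) m = (heawood g m : ℤ) := by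
  unfold H heawood
  have e : (6 * (m : ℝ) + 1) ^ 2 - 24 * ((2 - 2 * (g : ℤ) : ℤ) : ℝ) =
      (6 * (m : ℝ) + 1) ^ 2 + 48 * ((g : ℝ) - 1) := by push_cast; ring
  rw [e]
  rw [Int.natCast_floor_eq_floor]
  positivity

theorem attained (g m : ℕ) (hg : 2 ≤ g) (hm : 2 ≤ m) :
    ∃ (M : CellMap) (country : M.Face → Fin (heawood g m)), IsPire g m M country ∧
      ∀ a b, a ≠ b → ∃ x, country (M.face x) = a ∧ country (M.face (M.r2 x)) = b := by
  have hH := heawood_eq g m (by omega) (by omega)
  have hspec := H_spec (2 - 2 * (g : ℤ)) m (by omega) (by omega)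
  obtain ⟨n, hn⟩ : ∃ n, n = heawood g m := ⟨_, rfl⟩
  rw [← hn] at hH ⊢
  rw [hH] at hspec
  obtain ⟨a1, a2, a3, a4⟩ := hspec
  have hnm : 6 * m + 1 ≤ n := by
    by_contra hcon
    push Not at hcon
    have h1 : (n : ℤ) ≤ 6 * m := by omega
    have h2 : (0 : ℤ) ≤ (n + 1) * (6 * m - n) := mul_nonneg (by omega) (by omega)
    omega
  have hO : Opt n m := by
    obtain h | h : n ≤ 91 ∨ 92 ≤ n := by omega
    · exact opt_small n m (by omega) h hm hnm
    · exact opt_big n m h hm hnm
  obtain ⟨M, country, h1, h2, h3, h4⟩ := opt_surface g m n (by omega) hH hO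
  exact ⟨M, country, ⟨⟨by simpa [Surface.Orientable] using h1, h2⟩, h3⟩, h4⟩

theorem result (g m : ℕ) (hg : 2 ≤ g) (hm : 2 ≤ m) :
    IsLeast {k | Suffices g m k} (heawood g m) ∧
    ∃ (M : CellMap) (country : M.Face → Fin (heawood g m)), IsPire g m M country ∧
      ∀ a b, a ≠ b → ∃ x, country (M.face x) = a ∧ country (M.face (M.r2 x)) = b := by
  have hatt := attained g m hg hm
  refine ⟨⟨?_, ?_⟩, hatt⟩
  · have hH := heawood_eq g m (by omega) (by omega)
    have hspec := H_spec (2 - 2 * (g : ℤ)) m (by omega) (by omega)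
    rw [hH] at hspec
    obtain ⟨a1, a2, a3, a4⟩ := hspec
    intro V C H country hV hE hc
    obtain ⟨M, f, hM, hf, hadj⟩ := hE
    exact Up.colourable_graph g m (heawood g m) (by omega) (by exact_mod_cast a3) a2 M hM H f hf
      hadj country (fun c => (hc c).le)
  · intro k hk
    obtain ⟨M, country, ⟨hM, hc⟩, h4⟩ := hatt
    have := M.fin
    have hfin : Finite M.Face := Finite.of_surjective (Quot.mk _) Quot.mk_surjective
    obtain ⟨col, hcol⟩ := hk M.Face (Fin (heawood g m))
      (SimpleGraph.fromRel (fun u v => ∃ x, M.face x = u ∧ M.face (M.r2 x) = v)) country hfin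
      ⟨M, id, hM, Function.injective_id, by
        intro u v huv
        rw [SimpleGraph.fromRel_adj] at huv
        rcases huv.2 with h | ⟨x, h1, h2⟩
        · exact h
        · exact ⟨M.r2 x, h2, by rw [M.r2_inv]; exact h1⟩⟩ hc
    have hinj : Function.Injective col := by
      intro a b hab
      by_contra hne
      obtain ⟨x, hx, hx'⟩ := h4 a b hne
      have hne2 : country (M.face x) ≠ country (M.face (M.r2 x)) := by rw [hx, hx']; exact hne
      have := hcol (M.face x) (M.face (M.r2 x)) (by
        rw [SimpleGraph.fromRel_adj]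
        exact ⟨fun h => hne2 (congrArg country h), Or.inl ⟨x, rfl, rfl⟩⟩) hne2
      rw [hx, hx'] at this
      exact this hab
    simpa using Fintype.card_le_of_injective col hinj

end Pool.Agent.Results.MP_800721_co.ExactValue
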